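import Mathlib
import Pool.Agent.Helper456.HC.Main
import Pool.Agent.Helper456.HD.Final

/-! MP_2c0b9b_co: large sets `LS[N](t,k,v)` (in particular `LS[3](t,k,v)`) exist for all `k` in the central range
`4t+1 ≤ k ≤ v-4t-1` and all large `v`, whenever the divisibility conditions hold. -/

set_option autoImplicit false

namespace Pool.Agent.Results.MP_2c0b9b_co.CentralRange

open Finset

/-- A large set `LS[N](t,k,v)`: the `k`-subsets of a `v`-set are coloured with `N` colours such that
every `t`-subset lies in exactly `choose (v-t) (k-t) / N` blocks of every colour. -/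
def LargeSet (N t k v : ℕ) : Prop :=
  ∃ f : Finset (Fin v) → Fin N, ∀ j : Fin N, ∀ T : Finset (Fin v), T.card = t →
    N * ((Finset.powersetCard k (Finset.univ : Finset (Fin v))).filter
      (fun B => f B = j ∧ T ⊆ B)).card = (v - t).choose (k - t)

open Pool.Agent.Helper456.HC in
theorem feasible_of (N t k v : ℕ) (hN : 1 ≤ N) (htk : t ≤ k) (hkv : k ≤ v)
    (h : LargeSet N t k v) : ∀ i : ℕ, i ≤ t → N ∣ (v - i).choose (k - i) := by
  obtain ⟨f, hf⟩ := h
  intro i hi
  obtain ⟨j⟩ : Nonempty (Fin N) := ⟨⟨0, hN⟩⟩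
  set P := (Finset.univ : Finset (Fin v)).powersetCard k with hP
  set g : Finset (Fin v) → ℤ := fun S => (if f S = j then (N : ℤ) else 0) - 1 with hg
  have hsum : ∀ T : Finset (Fin v), T.card ≤ k → ∑ S ∈ P.filter (fun S => T ⊆ S), g S
      = (N : ℤ) * (P.filter (fun B => f B = j ∧ T ⊆ B)).card
        - ((v - T.card).choose (k - T.card) : ℕ) := by
    intro T hT
    rw [hg, Finset.sum_sub_distrib, ← Finset.sum_filter, Finset.sum_const, Finset.sum_const,
      Finset.filter_filter, hP, card_sup _ _ _ (Finset.subset_univ T) hT, Finset.card_univ,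
      Fintype.card_fin]
    have e : (univ.powersetCard k).filter (fun a : Finset (Fin v) => T ⊆ a ∧ f a = j)
        = (univ.powersetCard k).filter (fun B : Finset (Fin v) => f B = j ∧ T ⊆ B) :=
      Finset.filter_congr fun S _ => and_comm
    rw [e]
    simp only [nsmul_eq_mul]
    ring
  have hnull : ∀ T ∈ (Finset.univ : Finset (Fin v)).powersetCard t,
      ∑ S ∈ P.filter (fun S => T ⊆ S), g S = 0 := by
    intro T hT
    rw [Finset.mem_powersetCard] at hT
    rw [hsum T (by omega)]
    have h1 := hf j T hT.2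
    rw [hT.2, ← h1]
    push_cast
    ring
  obtain ⟨I, -, hI⟩ := Finset.exists_subset_card_eq (s := (Finset.univ : Finset (Fin v)))
    (n := i) (by rw [Finset.card_univ, Fintype.card_fin]; omega)
  have h1 := null_of_null t k htk (Finset.univ : Finset (Fin v)) g hnull I (by omega)
  rw [hsum I (by omega), hI] at h1
  refine ⟨(P.filter (fun B => f B = j ∧ I ⊆ B)).card, ?_⟩
  have h2 : (((v - i).choose (k - i) : ℕ) : ℤ) =
      ((N * (P.filter (fun B => f B = j ∧ I ⊆ B)).card : ℕ) : ℤ) := by
    push_cast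
    linarith
  exact_mod_cast h2

/-- For all `N ≥ 1` and `t` there is `v0` such that for all `v ≥ v0` and all `k` with
`4t+1 ≤ k ≤ v-4t-1` a large set `LS[N](t,k,v)` exists if and only if `N` divides
`choose (v-i) (k-i)` for all `i ≤ t`. The question is the case `N = 3`. -/
theorem result : ∀ N t : ℕ, 1 ≤ N → ∃ v0 : ℕ, ∀ v : ℕ, v0 ≤ v → ∀ k : ℕ, 4 * t + 1 ≤ k →
    k + (4 * t + 1) ≤ v →
      (LargeSet N t k v ↔ ∀ i : ℕ, i ≤ t → N ∣ (v - i).choose (k - i)) := by
  intro N t hN
  obtain ⟨v0, hv0⟩ := Pool.Agent.Helper456.HD.asymN N t hN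
  refine ⟨v0, fun v hv k hk hkv => ⟨feasible_of N t k v hN (by omega) (by omega),
    fun h => ?_⟩⟩
  exact hv0 v hv k hk (by omega) h

end Pool.Agent.Results.MP_2c0b9b_co.CentralRange
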